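import Pool.Agent.Helper13.Lor.ALG
import Pool.Agent.Helper77.Lor.LAT8

set_option autoImplicit false

/-!
# Module UP8 : upper bound for the sum of the weights over the cusp vectors of `U ⊕ E₈`
-/

namespace Pool.Agent.Helper34.Lor

open Pool.Agent.Helper10.Lor Pool.Agent.Helper13.Lor
open scoped Classical

variable {n : ℕ}

/-- `x ↦ form x y` as a linear map -/
noncomputable def fl (y : LV n) : LV n →ₗ[ℝ] ℝ where
  toFun x := form x y
  map_add' x z := by
    unfold form
    simp only [Prod.fst_add, Prod.snd_add, inner_add_left]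
    ring
  map_smul' c x := by
    unfold form
    simp only [Prod.smul_fst, Prod.smul_snd, smul_eq_mul, inner_smul_left, RingHom.id_apply,
      conj_trivial]
    ring

theorem fl_apply (x y : LV n) : fl y x = form x y := rfl

theorem form_comm (x y : LV n) : form x y = form y x := by
  unfold form
  rw [real_inner_comm]
  ring

theorem form_add_left (x y z : LV n) : form (x + y) z = form x z + form y z := (fl z).map_add x y

theorem form_smul_left (c : ℝ) (x z : LV n) : form (c • x) z = c * form x z :=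
  (fl z).map_smul c x

theorem form_sub_left (x y z : LV n) : form (x - y) z = form x z - form y z := (fl z).map_sub x y

theorem form_add_right (x y z : LV n) : form x (y + z) = form x y + form x z := by
  rw [form_comm x, form_add_left, form_comm y, form_comm z]

theorem form_smul_right (c : ℝ) (x z : LV n) : form x (c • z) = c * form x z := by
  rw [form_comm x, form_smul_left, form_comm z]

theorem form_sub_right (x y z : LV n) : form x (y - z) = form x y - form x z := by
  rw [form_comm x, form_sub_left, form_comm y, form_comm z]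

theorem form_sum_left {ι : Type} (s : Finset ι) (f : ι → LV n) (z : LV n) :
    form (∑ i ∈ s, f i) z = ∑ i ∈ s, form (f i) z := map_sum (fl z) f s

theorem form_sum_right {ι : Type} (s : Finset ι) (f : ι → LV n) (z : LV n) :
    form z (∑ i ∈ s, f i) = ∑ i ∈ s, form z (f i) := by
  rw [form_comm, form_sum_left]
  exact Finset.sum_congr rfl fun i _ => form_comm _ _

theorem orb_form {L : AddSubgroup (E n)} {w : LV n} (hw : w ∈ Orb L) : form w w = 0 := by
  obtain ⟨γ, hγ, rfl⟩ := hw
  rw [hγ.1.1, form_w0]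
  simp [w0]

theorem w0_lat (L : AddSubgroup (E n)) : (w0 : LV n) ∈ lat L :=
  ⟨⟨0, by simp [w0]⟩, ⟨1, by simp [w0]⟩, L.zero_mem⟩

theorem orb_lat {L : AddSubgroup (E n)} {w : LV n} (hw : w ∈ Orb L) : w ∈ lat L := by
  obtain ⟨γ, hγ, rfl⟩ := hw
  exact (hγ.2 w0).2 (w0_lat L)

theorem orb_inv {L : AddSubgroup (E n)} {w : LV n} (hw : w ∈ Orb L) {γ : LV n ≃ₗ[ℝ] LV n}
    (hγ : γ ∈ OL L) : γ⁻¹ w ∈ Orb L := by
  obtain ⟨δ, hδ, rfl⟩ := hw
  exact ⟨γ⁻¹ * δ, (OL L).mul_mem ((OL L).inv_mem hγ) hδ, rfl⟩

theorem form_int {L : AddSubgroup (E n)} {b : Fin n → E n} (hL : EvenLat L b) {w w' : LV n}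
    (hw : w ∈ lat L) (hw' : w' ∈ lat L) : ∃ m : ℤ, form w w' = m := by
  obtain ⟨⟨a, ha⟩, ⟨c, hc⟩, hv⟩ := hw
  obtain ⟨⟨a', ha'⟩, ⟨c', hc'⟩, hv'⟩ := hw'
  obtain ⟨d, hd⟩ := inner_int hL hv hv'
  refine ⟨d - a * c' - c * a', ?_⟩
  unfold form
  rw [hd, ha, hc, ha', hc']
  push_cast
  ring

theorem uval_vert (w : LV n) {r : ℝ} (hr : 0 < r) :
    uval w ((0, r) : Pt n) = w.2.1 / r + r / 2 * w.1 := by
  unfold uval form vec
  simp only [norm_zero, smul_zero, inner_zero_left]
  field_simp
  ring

theorem orb_fst {L : AddSubgroup (E n)} {w : LV n} (hw : w ∈ Orb L) : 0 ≤ w.1 := by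
  by_contra hc
  push Not at hc
  have hr0 : (0 : ℝ) < 1 + |2 * w.2.1 / w.1| := by positivity
  have h := uval_pos hw (p := (0, 1 + |2 * w.2.1 / w.1|)) hr0
  rw [uval_vert w hr0] at h
  set r := 1 + |2 * w.2.1 / w.1| with hr
  have h1 : |2 * w.2.1 / w.1| ≤ r ^ 2 := by
    have : 0 ≤ |2 * w.2.1 / w.1| := abs_nonneg _
    nlinarith
  have h2 : -(2 * w.2.1 / w.1) ≤ r ^ 2 := (neg_le_abs _).trans h1
  have h3 : 2 * w.2.1 + r ^ 2 * w.1 ≤ 0 := by
    have h4 := mul_le_mul_of_nonpos_right h2 hc.le
    have h5 : -(2 * w.2.1 / w.1) * w.1 = -(2 * w.2.1) := by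
      rw [neg_mul, div_mul_cancel₀ _ hc.ne]
    rw [h5] at h4
    linarith
  have h6 : w.2.1 / r + r / 2 * w.1 = (2 * w.2.1 + r ^ 2 * w.1) / (2 * r) := by
    field_simp
  rw [h6] at h
  have h7 : (2 * w.2.1 + r ^ 2 * w.1) / (2 * r) ≤ 0 :=
    div_nonpos_of_nonpos_of_nonneg h3 (by positivity)
  linarith

theorem orb_fst_zero {L : AddSubgroup (E n)} {w : LV n} (hw : w ∈ Orb L) (h0 : w.1 = 0) :
    w = w0 := by
  have hf := orb_form hw
  rw [form_self, h0] at hf
  have hv : w.2.2 = 0 := by
    have : ‖w.2.2‖ ^ 2 = 0 := by linarith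
    exact norm_eq_zero.1 (pow_eq_zero_iff (two_ne_zero) |>.1 this)
  have hpos := uval_pos hw (p := (0, 1)) (show (0 : ℝ) < 1 from one_pos)
  rw [uval_vert w one_pos, h0] at hpos
  have hpos' : 0 < w.2.1 := by linarith
  obtain ⟨-, ⟨c, hc⟩, -⟩ := orb_lat hw
  have hwe : w = w.2.1 • (w0 : LV n) := by
    refine Prod.ext ?_ (Prod.ext ?_ ?_)
    · rw [h0]; simp [w0]
    · simp [w0]
    · rw [hv]; simp [w0]
  obtain ⟨γ, hγ, hγw⟩ := hw
  have h1 : (w0 : LV n) = w.2.1 • γ⁻¹ w0 := by
    have h2 : γ⁻¹ w = w0 := by rw [hγw]; exact γ.symm_apply_apply w0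
    rw [← map_smul, ← hwe, h2]
  obtain ⟨-, ⟨d, hd⟩, -⟩ := orb_lat (L := L) ⟨γ⁻¹, (OL L).inv_mem hγ, rfl⟩
  have h3 : (1 : ℝ) = w.2.1 * (γ⁻¹ w0).2.1 := by
    have := congrArg (fun z : LV n => z.2.1) h1
    simpa [w0] using this
  rw [hc, hd] at h3
  have h4 : (1 : ℤ) = c * d := by exact_mod_cast h3
  have h5 : 0 < c := by
    rw [hc] at hpos'
    exact_mod_cast hpos'
  have h6 : c = 1 := by
    have : 0 < d := by
      by_contra hcon
      push Not at hcon
      nlinarith
    nlinarith
  rw [hwe, hc, h6]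
  simp

theorem orb_neg {L : AddSubgroup (E n)} {b : Fin n → E n} (hL : EvenLat L b) {w w' : LV n}
    (hw : w ∈ Orb L) (hw' : w' ∈ Orb L) (hne : w ≠ w') : ∃ m : ℤ, form w w' = -m ∧ 1 ≤ m := by
  obtain ⟨m, hm⟩ := form_int hL (orb_lat hw) (orb_lat hw')
  refine ⟨-m, by rw [hm]; push_cast; ring, ?_⟩
  obtain ⟨γ, hγ, hγw⟩ := hw
  have h2 : γ⁻¹ w' ∈ Orb L := orb_inv hw' hγ
  have h3 : form w w' = -(γ⁻¹ w').1 := by
    have h4 : γ (γ⁻¹ w') = w' := γ.apply_symm_apply w'
    rw [← h4, hγw, hγ.1.1, form_comm, form_w0, h4]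
  have h5 := orb_fst h2
  have h6 : (γ⁻¹ w').1 ≠ 0 := by
    intro h0
    have h7 := orb_fst_zero h2 h0
    apply hne
    have h4 : γ (γ⁻¹ w') = w' := γ.apply_symm_apply w'
    rw [hγw, ← h4, h7]
  have h7 : 0 < (γ⁻¹ w').1 := lt_of_le_of_ne h5 (Ne.symm h6)
  rw [h3] at hm
  have h8 : (m : ℝ) < 0 := by linarith
  have h9 : m < 0 := by exact_mod_cast h8
  omega

/-- a family with diagonal nondegenerate Gram matrix is linearly independent -/
theorem li_of_gram {ι : Type} (f : ι → LV n) (hd : ∀ i, form (f i) (f i) ≠ 0)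
    (ho : ∀ i j, i ≠ j → form (f i) (f j) = 0) : LinearIndependent ℝ f := by
  rw [linearIndependent_iff']
  intro s g hg i hi
  have h1 : form (∑ j ∈ s, g j • f j) (f i) = 0 := by
    rw [hg]
    exact (fl (f i)).map_zero
  rw [form_sum_left, Finset.sum_eq_single i] at h1
  · rw [form_smul_left] at h1
    exact (mul_eq_zero.1 h1).resolve_right (hd i)
  · intro j _ hj
    rw [form_smul_left, ho j i hj, mul_zero]
  · exact fun h => absurd hi h

theorem li_of_neg {S : Finset (LV n)} (hS : 2 ≤ S.card) (h0 : ∀ w ∈ S, form w w = 0)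
    (h1 : ∀ w ∈ S, ∀ w' ∈ S, w ≠ w' → form w w' = -1) :
    LinearIndependent ℝ (fun w : S => (w : LV n)) := by
  rw [Fintype.linearIndependent_iff]
  intro g hg
  have key : ∀ w : S, g w = ∑ v : S, g v := by
    intro w
    have h2 : form (∑ v : S, g v • (v : LV n)) (w : LV n) = 0 := by
      rw [hg]
      exact (fl (w : LV n)).map_zero
    rw [form_sum_left] at h2
    have h3 : ∀ v : S, form (g v • (v : LV n)) (w : LV n) = -(g v) + (if v = w then g v else 0) := by
      intro v
      rw [form_smul_left]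
      by_cases hvw : v = w
      · rw [if_pos hvw, hvw, h0 w w.2]; ring
      · rw [if_neg hvw, h1 v v.2 w w.2 (fun h => hvw (Subtype.ext h))]; ring
    rw [Finset.sum_congr rfl fun v _ => h3 v, Finset.sum_add_distrib, Finset.sum_neg_distrib,
      Finset.sum_ite_eq' Finset.univ w, if_pos (Finset.mem_univ _)] at h2
    linarith
  have h4 : ∑ v : S, g v = (S.card : ℝ) * ∑ v : S, g v := by
    calc ∑ v : S, g v = ∑ _v : S, ∑ v : S, g v := Finset.sum_congr rfl fun v _ => key v
      _ = (S.card : ℝ) * ∑ v : S, g v := by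
        rw [Finset.sum_const, Finset.card_univ, Fintype.card_coe, nsmul_eq_mul]
  have h5 : (2 : ℝ) ≤ S.card := by exact_mod_cast hS
  have h6 : ∑ v : S, g v = 0 := by
    have : ((S.card : ℝ) - 1) * ∑ v : S, g v = 0 := by linarith
    rcases mul_eq_zero.1 this with h | h
    · linarith
    · exact h
  intro w
  rw [key w, h6]

theorem finrank_LV : Module.finrank ℝ (LV 8) = 10 := by
  simp [LV, E]

/-- the number of cusp vectors in `S` -/
theorem card_bound {S : Finset (LV 8)} (h0 : ∀ w ∈ S, form w w = 0)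
    (h12 : ∀ w ∈ S, ∀ w' ∈ S, w ≠ w' → form w w' = -1 ∨ form w w' = -2)
    (huniq : ∀ a ∈ S, ∀ b ∈ S, ∀ c ∈ S, form a b = -2 → form a c = -2 → b = c) :
    let M := (S ×ˢ S).filter (fun z => form z.1 z.2 = -2)
    M.card ≤ S.card ∧ ((M.card = 0 ∧ S.card ≤ 10) ∨ 2 * S.card ≤ 18 + M.card) := by
  intro M
  have hM : ∀ z, z ∈ M ↔ (z.1 ∈ S ∧ z.2 ∈ S) ∧ form z.1 z.2 = -2 := by
    intro z
    rw [Finset.mem_filter, Finset.mem_product]
  refine ⟨?_, ?_⟩
  · apply Finset.card_le_card_of_injOn (fun z => z.1)
    · intro z hz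
      exact ((hM z).1 hz).1.1
    · intro z hz z' hz' h
      have h1 := (hM z).1 hz
      have h2 := (hM z').1 hz'
      have h3 : z.1 = z'.1 := h
      refine Prod.ext h3 ?_
      exact huniq z.1 h1.1.1 z.2 h1.1.2 z'.2 h2.1.2 h1.2 (by rw [h3]; exact h2.2)
  · rcases Finset.eq_empty_or_nonempty M with he | ⟨⟨a, b⟩, hab⟩
    · left
      refine ⟨by rw [he]; rfl, ?_⟩
      have h1 : ∀ w ∈ S, ∀ w' ∈ S, w ≠ w' → form w w' = -1 := by
        intro w hw w' hw' hne
        rcases h12 w hw w' hw' hne with h | h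
        · exact h
        · exfalso
          have : (w, w') ∈ M := (hM _).2 ⟨⟨hw, hw'⟩, h⟩
          rw [he] at this
          simp at this
      rcases Nat.lt_or_ge S.card 2 with h2 | h2
      · omega
      have h3 := (li_of_neg h2 h0 h1).fintype_card_le_finrank
      rw [finrank_LV, Fintype.card_coe] at h3
      exact h3
    · right
      obtain ⟨⟨haS, hbS⟩, hform⟩ := (hM _).1 hab
      simp only at haS hbS hform
      have hba : form b a = -2 := by rw [form_comm]; exact hform
      -- a maximal subset without matched pairs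
      obtain ⟨R, hRmem, hRmax⟩ := Finset.exists_max_image
        (S.powerset.filter (fun R => ∀ w ∈ R, ∀ w' ∈ R, form w w' ≠ -2)) Finset.card
        ⟨∅, by simp⟩
      rw [Finset.mem_filter, Finset.mem_powerset] at hRmem
      obtain ⟨hRS, hR⟩ := hRmem
      have hpart : ∀ w ∈ S \ R, ∃ r ∈ R, form w r = -2 := by
        intro w hw
        rw [Finset.mem_sdiff] at hw
        by_contra hc
        push Not at hc
        have hins : insert w R ∈ S.powerset.filter (fun R => ∀ w ∈ R, ∀ w' ∈ R, form w w' ≠ -2) := by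
          rw [Finset.mem_filter, Finset.mem_powerset]
          refine ⟨Finset.insert_subset hw.1 hRS, ?_⟩
          intro x hx y hy
          rw [Finset.mem_insert] at hx hy
          rcases hx with rfl | hx <;> rcases hy with rfl | hy
          · rw [h0 _ hw.1]; norm_num
          · exact hc y hy
          · rw [form_comm]; exact hc x hx
          · exact hR x hx y hy
        have := hRmax _ hins
        rw [Finset.card_insert_of_notMem hw.2] at this
        omega
      -- counting matched pairs
      have hM2 : 2 * (S \ R).card ≤ M.card := by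
        have e1 : (S \ R) ⊆ (M.filter (fun z => z.1 ∉ R)).image (fun z => z.1) := by
          intro w hw
          obtain ⟨r, hr, hwr⟩ := hpart w hw
          rw [Finset.mem_sdiff] at hw
          exact Finset.mem_image.2 ⟨(w, r), Finset.mem_filter.2
            ⟨(hM _).2 ⟨⟨hw.1, hRS hr⟩, hwr⟩, hw.2⟩, rfl⟩
        have e2 : (S \ R) ⊆ (M.filter (fun z => ¬ z.1 ∉ R)).image (fun z => z.2) := by
          intro w hw
          obtain ⟨r, hr, hwr⟩ := hpart w hw
          rw [Finset.mem_sdiff] at hw
          refine Finset.mem_image.2 ⟨(r, w), Finset.mem_filter.2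
            ⟨(hM _).2 ⟨⟨hRS hr, hw.1⟩, by rw [form_comm]; exact hwr⟩, not_not.2 hr⟩, rfl⟩
        have e3 := (Finset.card_le_card e1).trans Finset.card_image_le
        have e4 := (Finset.card_le_card e2).trans Finset.card_image_le
        have e5 := Finset.card_filter_add_card_filter_not (s := M) (fun z => z.1 ∉ R)
        omega
      -- dimension bound
      have hne : a ≠ b := by
        rintro rfl
        rw [h0 _ haS] at hform
        norm_num at hform
      set h : LV 8 := (1 / 2 : ℝ) • (a + b) with hh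
      have hhh : form h h = -1 := by
        rw [hh, form_smul_left, form_smul_right, form_add_left, form_add_right, form_add_right,
          h0 _ haS, h0 _ hbS, hform, hba]
        norm_num
      have hwh : ∀ w ∈ S, form w h = -1 := by
        intro w hw
        rw [hh, form_smul_right, form_add_right]
        by_cases hwa : w = a
        · rw [hwa, h0 _ haS, hform]; norm_num
        by_cases hwb : w = b
        · rw [hwb, h0 _ hbS, hba]; norm_num
        have k1 : form w a = -1 := by
          rcases h12 w hw a haS hwa with k | k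
          · exact k
          · exfalso
            exact hwb (huniq a haS w hw b hbS (by rw [form_comm]; exact k) hform)
        have k2 : form w b = -1 := by
          rcases h12 w hw b hbS hwb with k | k
          · exact k
          · exfalso
            exact hwa (huniq b hbS w hw a haS (by rw [form_comm]; exact k) hba)
        rw [k1, k2]; norm_num
      have hli := li_of_gram (fun o : Option R => o.elim h (fun w => (w : LV 8) - h)) (by
        rintro (_ | w)
        · simp only [Option.elim_none]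
          rw [hhh]; norm_num
        · simp only [Option.elim_some]
          rw [form_sub_left, form_sub_right, form_sub_right, h0 _ (hRS w.2), hwh _ (hRS w.2),
            form_comm h, hwh _ (hRS w.2), hhh]
          norm_num) (by
        have k3 : ∀ w : R, form ((w : LV 8) - h) h = 0 := by
          intro w
          rw [form_sub_left, hwh _ (hRS w.2), hhh]; norm_num
        rintro (_ | w) (_ | w') hne'
        · exact absurd rfl hne'
        · simp only [Option.elim_none, Option.elim_some]
          rw [form_comm]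
          exact k3 w'
        · simp only [Option.elim_none, Option.elim_some]
          exact k3 w
        · simp only [Option.elim_some]
          have hww : (w : LV 8) ≠ w' := by
            intro h'
            exact hne' (by rw [Subtype.ext h'])
          have k4 : form (w : LV 8) w' = -1 := by
            rcases h12 w (hRS w.2) w' (hRS w'.2) hww with k | k
            · exact k
            · exact absurd k (hR w w.2 w' w'.2)
          rw [form_sub_left, form_sub_right, form_sub_right, k4, hwh _ (hRS w.2), form_comm h,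
            hwh _ (hRS w'.2), hhh]
          norm_num)
      have h3 := hli.fintype_card_le_finrank
      rw [finrank_LV, Fintype.card_option, Fintype.card_coe] at h3
      have h4 := Finset.card_sdiff_add_card_eq_card hRS
      omega

theorem sum_bound {p : Pt 8} (hp : p ∈ UH 8) (S : Finset (LV 8)) (hS : ∀ w ∈ S, w ∈ Orb E8)
    (hu : ∀ w ∈ S, uval w p < 106 / 100) : ∑ w ∈ S, (106 / 100 - uval w p) ≤ 112 / 100 := by
  obtain ⟨b, hL⟩ := Pool.Agent.Helper77.Lor.evenLat_E8
  have hpos : ∀ w ∈ S, 0 < uval w p := fun w hw => uval_pos (hS w hw) hp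
  have hfu : ∀ w, form (vec p) w = -uval w p := fun w => by unfold uval; ring
  have h0 : ∀ w ∈ S, form w w = 0 := fun w hw => orb_form (hS w hw)
  have h1 : ∀ w ∈ S, ∀ w' ∈ S, w ≠ w' → form w w' ≤ -1 := by
    intro w hw w' hw' hne
    obtain ⟨m, hm, hm1⟩ := orb_neg hL (hS w hw) (hS w' hw') hne
    rw [hm]
    have : (1 : ℝ) ≤ m := by exact_mod_cast hm1
    linarith
  have h12 : ∀ w ∈ S, ∀ w' ∈ S, w ≠ w' → form w w' = -1 ∨ form w w' = -2 := by
    intro w hw w' hw' hne
    obtain ⟨m, hm, hm1⟩ := orb_neg hL (hS w hw) (hS w' hw') hne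
    have h2 := rcs (uval w' p • w + uval w p • w') hp
    have e0 : form (vec p) (uval w' p • w + uval w p • w') = -(2 * (uval w p * uval w' p)) := by
      rw [form_add_right, form_smul_right, form_smul_right, hfu, hfu]; ring
    rw [e0] at h2
    simp only [form_add_left, form_add_right, form_smul_left, form_smul_right, h0 w hw, h0 w' hw',
      form_comm w' w] at h2
    rw [hm] at h2 ⊢
    have p1 := hpos w hw
    have p2 := hpos w' hw'
    have u1 := hu w hw
    have u2 := hu w' hw'
    set x := uval w p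
    set y := uval w' p
    have hxy : 0 < x * y := mul_pos p1 p2
    have h3 : 2 * (x * y) * m ≤ 4 * (x * y) * (x * y) := by nlinarith
    have h4 : (m : ℝ) ≤ 2 * (x * y) := by
      by_contra hc
      push Not at hc
      nlinarith
    have h5 : x * y < 106 / 100 * (106 / 100) := by nlinarith
    have h6 : (m : ℝ) < 3 := by norm_num at h5; linarith
    have h7 : m < 3 := by exact_mod_cast h6
    have h8 : m = 1 ∨ m = 2 := by omega
    rcases h8 with h8 | h8
    · left; rw [h8]; norm_num
    · right; rw [h8]; norm_num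
  have huniq : ∀ a ∈ S, ∀ b ∈ S, ∀ c ∈ S, form a b = -2 → form a c = -2 → b = c := by
    intro a ha b hb c hc hab hac
    by_contra hbc
    have h2 := rcs ((3 : ℝ) • a + ((2 : ℝ) • b + (2 : ℝ) • c)) hp
    have e0 : form (vec p) ((3 : ℝ) • a + ((2 : ℝ) • b + (2 : ℝ) • c)) =
        -(3 * uval a p + (2 * uval b p + 2 * uval c p)) := by
      rw [form_add_right, form_add_right, form_smul_right, form_smul_right, form_smul_right,
        hfu, hfu, hfu]; ring
    rw [e0, neg_sq] at h2
    simp only [form_add_left, form_add_right, form_smul_left, form_smul_right, h0 a ha, h0 b hb,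
      h0 c hc, form_comm b a, form_comm c a, form_comm c b, hab, hac] at h2
    have h3 := h1 b hb c hc hbc
    have u1 := hu a ha
    have u2 := hu b hb
    have u3 := hu c hc
    have p1 := hpos a ha
    have p2 := hpos b hb
    have p3 := hpos c hc
    have h4 : 3 * uval a p + (2 * uval b p + 2 * uval c p) < 7 * (106 / 100) := by linarith
    have h5 : 0 < 3 * uval a p + (2 * uval b p + 2 * uval c p) := by linarith
    have h6 : (3 * uval a p + (2 * uval b p + 2 * uval c p)) ^ 2 < (7 * (106 / 100)) ^ 2 :=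
      pow_lt_pow_left₀ h4 h5.le two_ne_zero
    norm_num at h6
    nlinarith
  obtain ⟨hMk, hMd⟩ := card_bound h0 h12 huniq
  set M := (S ×ˢ S).filter (fun z => form z.1 z.2 = -2) with hMdef
  -- the quadratic inequality
  have hq : (S.card : ℝ) * (S.card - 1) + M.card ≤ (∑ w ∈ S, uval w p) ^ 2 := by
    have h2 := rcs (∑ w ∈ S, w) hp
    have e1 : form (vec p) (∑ w ∈ S, w) = -∑ w ∈ S, uval w p := by
      rw [form_sum_right, ← Finset.sum_neg_distrib]
      exact Finset.sum_congr rfl fun w _ => hfu w
    rw [e1, neg_sq] at h2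
    refine le_trans (le_of_eq ?_) h2
    have e2 : form (∑ w ∈ S, w) (∑ w ∈ S, w) = ∑ z ∈ S ×ˢ S, form z.1 z.2 := by
      rw [form_sum_left, Finset.sum_product]
      exact Finset.sum_congr rfl fun w _ => form_sum_right _ _ _
    have e3 : ∀ z ∈ S ×ˢ S, form z.1 z.2 = -1 + (if z.1 = z.2 then 1 else 0) -
        (if form z.1 z.2 = -2 then 1 else 0) := by
      intro z hz
      rw [Finset.mem_product] at hz
      by_cases hzz : z.1 = z.2
      · rw [if_pos hzz, ← hzz, h0 _ hz.1, if_neg (by norm_num)]; norm_num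
      · rw [if_neg hzz]
        rcases h12 _ hz.1 _ hz.2 hzz with k | k
        · rw [k, if_neg (by norm_num)]; norm_num
        · rw [k, if_pos rfl]; norm_num
    rw [e2, Finset.sum_congr rfl e3, Finset.sum_sub_distrib, Finset.sum_add_distrib,
      Finset.sum_const, Finset.card_product, Finset.sum_boole, Finset.sum_boole, nsmul_eq_mul]
    have e4 : ((S ×ˢ S).filter (fun z => z.1 = z.2)).card = S.card := by
      have : (S ×ˢ S).filter (fun z => z.1 = z.2) = S.diag := by
        ext z
        rw [Finset.mem_filter, Finset.mem_product, Finset.mem_diag]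
        constructor
        · exact fun h => ⟨h.1.1, h.2⟩
        · exact fun h => ⟨⟨h.1, h.2 ▸ h.1⟩, h.2⟩
      rw [this, Finset.diag_card]
    rw [e4]
    push_cast
    ring
  rw [Finset.sum_sub_distrib, Finset.sum_const, nsmul_eq_mul]
  have hU0 : 0 ≤ ∑ w ∈ S, uval w p := Finset.sum_nonneg fun w hw => (hpos w hw).le
  generalize ∑ w ∈ S, uval w p = U at hq hU0 ⊢
  by_contra hc
  push Not at hc
  have h5 : U ^ 2 < ((S.card : ℝ) * (106 / 100) - 112 / 100) ^ 2 :=
    pow_lt_pow_left₀ (by linarith) hU0 two_ne_zero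
  have hk18 : S.card ≤ 18 := by
    rcases hMd with h | h <;> omega
  have hmm : ∃ m : ℕ, M.card = m := ⟨_, rfl⟩
  obtain ⟨m, hm⟩ := hmm
  rw [hm] at hMk hMd hq
  have h6 : (S.card : ℝ) * (S.card - 1) + m < ((S.card : ℝ) * (106 / 100) - 112 / 100) ^ 2 := by
    linarith
  have hm0 : (0 : ℝ) ≤ m := by positivity
  clear_value M
  generalize S.card = k at *
  have h7 : (2 * k : ℕ) ≤ 18 + m → 2 * (k : ℝ) ≤ 18 + m := fun h => by exact_mod_cast h
  rcases Nat.lt_or_ge k 11 with h11 | h11
  · interval_cases k <;> norm_num at h6 hc <;> linarith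
  · have h8 : 2 * (k : ℝ) ≤ 18 + m := h7 (by omega)
    interval_cases k <;> norm_num at h6 h8 <;> linarith

/-- module UP8 -/
theorem upper_E8 {p : Pt 8} (hp : p ∈ UH 8) :
    ∑' w : Orb E8, ENNReal.ofReal (psi (106 / 100) (1 / uval w p))
      ≤ ENNReal.ofReal (112 / 100) := by
  rw [ENNReal.tsum_eq_iSup_sum]
  apply iSup_le
  intro s
  have hpsi : ∀ w : Orb E8, psi (106 / 100) (1 / uval (w : LV 8) p)
      = max 0 (106 / 100 - uval (w : LV 8) p) := by
    intro w
    unfold psi
    rw [one_div_one_div]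
  simp only [hpsi]
  rw [← ENNReal.ofReal_sum_of_nonneg (fun w _ => le_max_left _ _)]
  apply ENNReal.ofReal_le_ofReal
  have h1 : ∑ w ∈ s, max 0 (106 / 100 - uval (w : LV 8) p) =
      ∑ w ∈ s.filter (fun w : Orb E8 => uval (w : LV 8) p < 106 / 100), (106 / 100 - uval (w : LV 8) p) := by
    rw [Finset.sum_filter]
    apply Finset.sum_congr rfl
    intro w _
    by_cases h : uval (w : LV 8) p < 106 / 100
    · rw [if_pos h]
      exact max_eq_right (by linarith)
    · rw [if_neg h]
      exact max_eq_left (by linarith)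
  have h2 : ∑ w ∈ (s.filter (fun w : Orb E8 => uval (w : LV 8) p < 106 / 100)).map
      (Function.Embedding.subtype _), (106 / 100 - uval w p) =
      ∑ w ∈ s.filter (fun w : Orb E8 => uval (w : LV 8) p < 106 / 100),
        (106 / 100 - uval (w : LV 8) p) := by
    rw [Finset.sum_map]
    rfl
  rw [h1, ← h2]
  apply sum_bound hp
  · intro w hw
    rw [Finset.mem_map] at hw
    obtain ⟨v, -, rfl⟩ := hw
    exact v.2
  · intro w hw
    rw [Finset.mem_map] at hw
    obtain ⟨v, hv, rfl⟩ := hw
    exact (Finset.mem_filter.1 hv).2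

end Pool.Agent.Helper34.Lor
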